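import Mathlib

set_option autoImplicit false

namespace Pool.Agent.KDet

open Set
open scoped Cardinal

/-- the cardinals `ℵ_i` -/
noncomputable def ka (i : ℕ) : Cardinal.{0} := Cardinal.aleph (i : Ordinal)

theorem ka_inf (i : ℕ) : ℵ₀ ≤ ka i := Cardinal.aleph0_le_aleph _

theorem ka_mono {i j : ℕ} (h : i ≤ j) : ka i ≤ ka j := by
  unfold ka
  exact Cardinal.aleph_le_aleph.2 (by exact_mod_cast h)

theorem ka_lt (i : ℕ) : ka i < ka (i+1) := by
  unfold ka
  exact Cardinal.aleph_lt_aleph.2 (by exact_mod_cast Nat.lt_succ_self i)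

/-- a set of size `ℵ_{i+1}` -/
def Xs (i : ℕ) : Type := (ka (i+1)).out

theorem mk_Xs (i : ℕ) : #(Xs i) = ka (i+1) := Cardinal.mk_out _

/-- `Xs i` with a generic point `none` added -/
inductive Zs (i : ℕ) : Type
  | gen : Zs i
  | pt : Xs i → Zs i

theorem small_union {α : Type} {i : ℕ} {A B : Set α} (hA : #A ≤ ka i) (hB : #B ≤ ka i) : #(A ∪ B : Set α) ≤ ka i := by
  refine le_trans (Cardinal.mk_union_le A B) ?_
  calc #A + #B ≤ ka i + ka i := add_le_add hA hB
    _ = ka i := Cardinal.add_eq_self (ka_inf i)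

theorem small_mono {α : Type} {i : ℕ} {A B : Set α} (hB : #B ≤ ka i) (h : A ⊆ B) : #A ≤ ka i :=
  le_trans (Cardinal.mk_le_mk_of_subset h) hB

theorem univ_not_small (i : ℕ) : ¬ #(univ : Set (Xs i)) ≤ ka i := by
  rw [Cardinal.mk_univ, mk_Xs]
  exact not_le.2 (ka_lt i)

instance (i : ℕ) : TopologicalSpace (Xs i) :=
  TopologicalSpace.ofClosed {C | C = univ ∨ #C ≤ ka i}
    (Or.inr (by simp))
    (by
      intro A hA
      by_cases h : ∃ C ∈ A, #C ≤ ka i
      · obtain ⟨C, hC, hs⟩ := h
        exact Or.inr (small_mono hs (sInter_subset_of_mem hC))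
      · left
        push Not at h
        apply sInter_eq_univ.2
        intro C hC
        rcases hA hC with h1 | h1
        · exact h1
        · exact absurd h1 (not_le.2 (h C hC)))
    (by
      intro A hA B hB
      rcases hA with rfl | hA
      · left; simp
      · rcases hB with rfl | hB
        · left; simp
        · right; exact small_union hA hB)

theorem closed_X {i : ℕ} {C : Set (Xs i)} : IsClosed C ↔ C = univ ∨ #C ≤ ka i := by
  rw [← isOpen_compl_iff]
  show Cᶜᶜ ∈ _ ↔ _
  rw [compl_compl]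
  rfl

noncomputable instance (i : ℕ) : TopologicalSpace (Zs i) :=
  TopologicalSpace.ofClosed {C | C = univ ∨ ((Zs.gen : Zs i) ∉ C ∧ #C ≤ ka i)}
    (Or.inr (by simp))
    (by
      intro A hA
      by_cases h : ∃ C ∈ A, (Zs.gen : Zs i) ∉ C ∧ #C ≤ ka i
      · obtain ⟨C, hC, hn, hs⟩ := h
        exact Or.inr ⟨fun hh => hn (hh C hC), small_mono hs (sInter_subset_of_mem hC)⟩
      · left
        push Not at h
        apply sInter_eq_univ.2
        intro C hC
        rcases hA hC with h1 | h1
        · exact h1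
        · exact absurd h1.2 (not_le.2 (h C hC h1.1)))
    (by
      intro A hA B hB
      rcases hA with rfl | hA
      · left; simp
      · rcases hB with rfl | hB
        · left; simp
        · right
          refine ⟨?_, small_union hA.2 hB.2⟩
          rintro (h | h)
          · exact hA.1 h
          · exact hB.1 h)

theorem closed_Z {i : ℕ} {C : Set (Zs i)} : IsClosed C ↔ C = univ ∨ ((Zs.gen : Zs i) ∉ C ∧ #C ≤ ka i) := by
  rw [← isOpen_compl_iff]
  show Cᶜᶜ ∈ _ ↔ _
  rw [compl_compl]
  rfl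

theorem closed_Z_small {i : ℕ} {C : Set (Zs i)} (hn : (Zs.gen : Zs i) ∉ C) (hs : #C ≤ ka i) : IsClosed C :=
  closed_Z.2 (Or.inr ⟨hn, hs⟩)

theorem none_mem_open {i : ℕ} {U : Set (Zs i)} (hU : IsOpen U) (hne : U.Nonempty) : (Zs.gen : Zs i) ∈ U := by
  by_contra h
  rcases closed_Z.1 hU.isClosed_compl with h1 | h1
  · obtain ⟨x, hx⟩ := hne
    have : x ∈ Uᶜ := by rw [h1]; trivial
    exact this hx
  · exact h1.1 h

instance neX (i : ℕ) : Nonempty (Xs i) := by
  have : #(Xs i) ≠ 0 := by
    rw [mk_Xs]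
    exact (lt_of_lt_of_le Cardinal.aleph0_pos (ka_inf _)).ne'
  exact Cardinal.mk_ne_zero_iff.1 this

/-- two closed sets covering `Xs i` : one is everything -/
theorem cover2 {i : ℕ} {A B : Set (Xs i)} (hA : IsClosed A) (hB : IsClosed B) (h : A ∪ B = univ) : A = univ ∨ B = univ := by
  rcases closed_X.1 hA with h1 | h1
  · exact Or.inl h1
  · rcases closed_X.1 hB with h2 | h2
    · exact Or.inr h2
    · exfalso
      have := small_union h1 h2
      rw [h] at this
      exact univ_not_small i this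

theorem inter_nonempty {i : ℕ} {U V : Set (Xs i)} (hU : IsOpen U) (hV : IsOpen V) (hUn : U.Nonempty) (hVn : V.Nonempty) :
    (U ∩ V).Nonempty := by
  by_contra h
  rw [not_nonempty_iff_eq_empty] at h
  have : Uᶜ ∪ Vᶜ = univ := by rw [← compl_inter, h, compl_empty]
  rcases cover2 hU.isClosed_compl hV.isClosed_compl this with h1 | h1
  · rw [compl_univ_iff] at h1; exact hUn.ne_empty h1
  · rw [compl_univ_iff] at h1; exact hVn.ne_empty h1

instance irrX (i : ℕ) : IrreducibleSpace (Xs i) where
  isPreirreducible_univ := by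
    intro U V hU hV ⟨x, _, hx⟩ ⟨y, _, hy⟩
    rw [univ_inter]
    exact inter_nonempty hU hV ⟨x, hx⟩ ⟨y, hy⟩
  toNonempty := neX i

instance t0X (i : ℕ) : T0Space (Xs i) := by
  have : T1Space (Xs i) := ⟨fun x => closed_X.2 (Or.inr (by
    rw [Cardinal.mk_singleton]; exact le_trans Cardinal.one_le_aleph0 (ka_inf i)))⟩
  infer_instance

theorem finset_inter_nonempty {i : ℕ} {ι : Type*} (s : Finset ι) (U : ι → Set (Xs i)) (hU : ∀ j ∈ s, IsOpen (U j))
    (hn : ∀ j ∈ s, (U j).Nonempty) : ∃ t, ∀ j ∈ s, t ∈ U j := by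
  classical
  have : (⋂ j ∈ s, U j).Nonempty ∧ IsOpen (⋂ j ∈ s, U j) := by
    induction s using Finset.induction_on with
    | empty => simp
    | insert a s ha ih =>
      rw [Finset.set_biInter_insert]
      have ih' := ih (fun j hj => hU j (Finset.mem_insert_of_mem hj)) (fun j hj => hn j (Finset.mem_insert_of_mem hj))
      have h1 := hU a (Finset.mem_insert_self _ _)
      exact ⟨inter_nonempty h1 ih'.2 (hn a (Finset.mem_insert_self _ _)) ih'.1, h1.inter ih'.2⟩
  obtain ⟨⟨t, ht⟩, _⟩ := this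
  refine ⟨t, fun j hj => ?_⟩
  exact (mem_iInter₂.1 ht) j hj

/-- a continuous map with values in a small closed set without generic point is constant -/
theorem const_of_small {i j : ℕ} (h : Xs i → Zs j) (hc : Continuous h) (C : Set (Zs j))
    (hn : (Zs.gen : Zs j) ∉ C) (hs : #C ≤ ka j) (hr : ∀ t, h t ∈ C) : ∃ c, ∀ t, h t = c := by
  obtain ⟨t0⟩ := neX i
  refine ⟨h t0, ?_⟩
  have h1 : IsClosed (h ⁻¹' {h t0}) := by
    apply IsClosed.preimage hc
    apply closed_Z_small
    · intro hh; exact hn (by have := hr t0; rw [← (mem_singleton_iff.1 hh)] at this; exact this)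
    · exact small_mono hs (by intro x hx; rw [mem_singleton_iff.1 hx]; exact hr t0)
  have h2 : IsClosed (h ⁻¹' (C \ {h t0})) := by
    apply IsClosed.preimage hc
    apply closed_Z_small
    · intro hh; exact hn hh.1
    · exact small_mono hs sdiff_subset
  have h3 : h ⁻¹' {h t0} ∪ h ⁻¹' (C \ {h t0}) = univ := by
    ext t
    simp only [mem_union, mem_preimage, mem_singleton_iff, mem_sdiff, mem_univ, iff_true]
    by_cases ht : h t = h t0
    · exact Or.inl ht
    · exact Or.inr ⟨hr t, ht⟩
  rcases cover2 h1 h2 h3 with h4 | h4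
  · intro t
    have : t ∈ h ⁻¹' {h t0} := by rw [h4]; trivial
    exact this
  · exfalso
    have : t0 ∈ h ⁻¹' (C \ {h t0}) := by rw [h4]; trivial
    exact this.2 rfl

/-- a continuous map `Xs i → Zs j`, `i < j`, is constant or almost everywhere generic -/
theorem const_or_small {i j : ℕ} (hij : i < j) (h : Xs i → Zs j) (hc : Continuous h) :
    (∃ c, ∀ t, h t = c) ∨ #{t | h t ≠ (Zs.gen : Zs j)} ≤ ka i := by
  by_contra hcon
  push Not at hcon
  obtain ⟨hnc, hbig⟩ := hcon
  set T : Set (Xs i) := {t | h t ≠ (Zs.gen : Zs j)} with hT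
  have hS : #(h '' T) ≤ ka j := by
    calc #(h '' T) ≤ #T := Cardinal.mk_image_le
      _ ≤ #(Xs i) := Cardinal.mk_set_le _
      _ = ka (i+1) := mk_Xs i
      _ ≤ ka j := ka_mono hij
  have hSn : (Zs.gen : Zs j) ∉ h '' T := by
    rintro ⟨t, ht, h0⟩
    exact ht h0
  have hpre : h ⁻¹' (h '' T) = T := by
    ext t
    constructor
    · rintro ⟨s, hs, hst⟩
      show h t ≠ _
      rw [← hst]; exact hs
    · intro ht; exact ⟨t, ht, rfl⟩
  have hTc : IsClosed T := by
    rw [← hpre]
    exact (closed_Z_small hSn hS).preimage hc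
  rcases closed_X.1 hTc with h1 | h1
  · obtain ⟨c, hcc⟩ := const_of_small h hc (h '' T) hSn hS (fun t => ⟨t, by rw [h1]; trivial, rfl⟩)
    obtain ⟨t, ht⟩ := hnc c
    exact ht (hcc t)
  · exact absurd h1 (not_le.2 hbig)

/-- the special space -/
abbrev Ys : Type := {z : ∀ i, Zs i // {j | z j = (Zs.gen : Zs j)}.Finite}


theorem closure_eq_iff {Y : Type} [TopologicalSpace Y] (S : Set Y) (y : Y) :
    closure S = closure {y} ↔ ∀ V : Set Y, IsOpen V → ((V ∩ S).Nonempty ↔ y ∈ V) := by
  constructor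
  · intro h V hV
    constructor
    · rintro ⟨s, hsV, hsS⟩
      have : s ∈ closure {y} := by rw [← h]; exact subset_closure hsS
      rw [mem_closure_iff] at this
      obtain ⟨z, hzV, hz⟩ := this V hV hsV
      rw [mem_singleton_iff.1 hz] at hzV
      exact hzV
    · intro hy
      have : y ∈ closure S := by rw [h]; exact subset_closure rfl
      rw [mem_closure_iff] at this
      exact this V hV hy
  · intro h
    ext x
    rw [mem_closure_iff, mem_closure_iff]
    constructor
    · intro hx V hV hxV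
      exact ⟨y, (h V hV).1 (hx V hV hxV), rfl⟩
    · intro hx V hV hxV
      obtain ⟨z, hzV, hz⟩ := hx V hV hxV
      rw [mem_singleton_iff.1 hz] at hzV
      exact (h V hV).2 hzV

theorem Ys_generic (i : ℕ) (g : Xs i → Ys) (hg : Continuous g) : ∃ y : Ys, closure (range g) = closure {y} := by
  classical
  have hgv : Continuous (fun t => (g t).1) := continuous_subtype_val.comp hg
  have hgj : ∀ j, Continuous (fun t => (g t).1 j) := fun j => (continuous_apply j).comp hgv
  obtain ⟨t0⟩ := neX i
  set J : Set ℕ := {j | i < j ∧ ¬ ∃ c, ∀ t, (g t).1 j = c} with hJ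
  have hsm : ∀ j ∈ J, #{t | (g t).1 j ≠ (Zs.gen : Zs j)} ≤ ka i := by
    intro j hj
    rcases const_or_small hj.1 (fun t => (g t).1 j) (hgj j) with h | h
    · exact absurd h hj.2
    · exact h
  have hJf : J.Finite := by
    by_contra hinf
    have hcov : (⋃ j : J, {t | (g t).1 j ≠ (Zs.gen : Zs j)}) = univ := by
      ext t
      simp only [mem_iUnion, mem_ofPred_eq, mem_univ, iff_true]
      by_contra hh
      push Not at hh
      apply hinf
      apply (g t).2.subset
      intro j hj
      exact hh ⟨j, hj⟩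
    have h1 : #(⋃ j : J, {t | (g t).1 j ≠ (Zs.gen : Zs j)} : Set (Xs i)) ≤ ka i := by
      refine le_trans (Cardinal.mk_iUnion_le _) ?_
      have h2 : (⨆ j : J, #{t | (g t).1 j ≠ (Zs.gen : Zs j)}) ≤ ka i := by
        apply ciSup_le'
        intro j
        exact hsm j.1 j.2
      calc #J * (⨆ j : J, #{t | (g t).1 j ≠ (Zs.gen : Zs j)}) ≤ ℵ₀ * ka i :=
            mul_le_mul' (Cardinal.mk_le_aleph0) h2
        _ ≤ ka i * ka i := mul_le_mul' (ka_inf i) le_rfl
        _ = ka i := Cardinal.mul_eq_self (ka_inf i)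
    rw [hcov] at h1
    exact univ_not_small i h1
  let ga : ∀ j, Zs j := fun j => if ∃ c, ∀ t, (g t).1 j = c then (g t0).1 j else (Zs.gen : Zs j)
  have hga1 : ∀ j, (∃ c, ∀ t, (g t).1 j = c) → ∀ t, (g t).1 j = ga j := by
    intro j hj t
    have : ga j = (g t0).1 j := if_pos hj
    rw [this]
    obtain ⟨c, hc⟩ := hj
    rw [hc t, hc t0]
  have hga2 : ∀ j, (¬ ∃ c, ∀ t, (g t).1 j = c) → ga j = (Zs.gen : Zs j) := by
    intro j hj
    exact if_neg hj
  have hfin : {j | ga j = (Zs.gen : Zs j)}.Finite := by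
    apply ((hJf.union (Set.finite_Iic i)).union (g t0).2).subset
    intro j hj
    by_cases hc : ∃ c, ∀ t, (g t).1 j = c
    · right
      show (g t0).1 j = _
      rw [hga1 j hc t0]; exact hj
    · left
      by_cases hij : i < j
      · left; exact ⟨hij, hc⟩
      · right; exact not_lt.1 hij
  refine ⟨⟨ga, hfin⟩, ?_⟩
  rw [closure_eq_iff]
  intro V hV
  obtain ⟨W, hW, rfl⟩ := isOpen_induced_iff.1 hV
  constructor
  · rintro ⟨_, hz, ⟨t, rfl⟩⟩
    have hz' : (g t).1 ∈ W := hz
    obtain ⟨I, u, hu, hsub⟩ := isOpen_pi_iff.1 hW _ hz'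
    show ga ∈ W
    apply hsub
    intro j hj
    by_cases hc : ∃ c, ∀ t, (g t).1 j = c
    · rw [← hga1 j hc t]; exact (hu j hj).2
    · rw [hga2 j hc]; exact none_mem_open (hu j hj).1 ⟨_, (hu j hj).2⟩
  · intro hz
    have hz' : ga ∈ W := hz
    obtain ⟨I, u, hu, hsub⟩ := isOpen_pi_iff.1 hW _ hz'
    obtain ⟨t, ht⟩ := finset_inter_nonempty (i := i) I (fun j => (fun t => (g t).1 j) ⁻¹' (u j))
      (fun j hj => (hu j hj).1.preimage (hgj j))
      (by
        intro j hj
        by_cases hc : ∃ c, ∀ t, (g t).1 j = c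
        · exact ⟨t0, by show (g t0).1 j ∈ u j; rw [hga1 j hc t0]; exact (hu j hj).2⟩
        · by_contra hne
          rw [not_nonempty_iff_eq_empty] at hne
          apply hc
          have hcl := (hu j hj).1.isClosed_compl
          rcases closed_Z.1 hcl with h1 | h1
          · exfalso
            have : ga j ∈ (u j)ᶜ := by rw [h1]; trivial
            exact this (hu j hj).2
          · apply const_of_small (fun t => (g t).1 j) (hgj j) ((u j)ᶜ) h1.1 h1.2
            intro t ht
            have : t ∈ (fun t => (g t).1 j) ⁻¹' (u j) := ht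
            rw [hne] at this
            exact this)
    exact ⟨g t, hsub (fun j hj => ht j hj), ⟨t, rfl⟩⟩

/-- the class K -/
def KK (Y : Type) [TopologicalSpace Y] : Prop :=
  T0Space Y ∧ ∀ (i : ℕ) (g : Xs i → Y), Continuous g → ∃ y : Y, closure (range g) = closure {y}

theorem t0_unique {Y : Type} [TopologicalSpace Y] [T0Space Y] {y z : Y} (h : closure ({y} : Set Y) = closure {z}) : y = z := by
  have h1 : Inseparable y z := inseparable_iff_closure_eq.2 h
  exact h1.eq

theorem KK_sober (Y : Type) [TopologicalSpace Y] (h0 : T0Space Y) (hs : QuasiSober Y) : KK Y := by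
  refine ⟨h0, ?_⟩
  intro i g hg
  have h1 : IsIrreducible (range g) := by
    rw [← image_univ]
    exact (IrreducibleSpace.isIrreducible_univ (Xs i)).image g hg.continuousOn
  obtain ⟨y, hy⟩ := QuasiSober.sober h1.closure isClosed_closure
  exact ⟨y, hy.symm⟩

instance t0Z (i : ℕ) : T0Space (Zs i) := by
  rw [t0Space_iff_inseparable]
  intro x y hxy
  by_contra hne
  have key : ∀ (a : Xs i) (b : Zs i), Inseparable (Zs.pt a : Zs i) b → b = (Zs.pt a : Zs i) := by
    intro a b hab
    have hcl : IsClosed ({(Zs.pt a : Zs i)} : Set (Zs i)) := by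
      apply closed_Z_small
      · intro h; exact absurd (mem_singleton_iff.1 h) (by simp)
      · rw [Cardinal.mk_singleton]; exact le_trans Cardinal.one_le_aleph0 (ka_inf i)
    have := (hab.mem_closed_iff hcl).1 rfl
    exact this
  rcases x with _ | a
  · rcases y with _ | b
    · exact hne rfl
    · exact hne (key b _ hxy.symm)
  · exact hne (key a _ hxy).symm

theorem KK_Ys : KK Ys := by
  refine ⟨?_, Ys_generic⟩
  exact inferInstanceAs (T0Space {z : ∀ i, Zs i // {j | z j = (Zs.gen : Zs j)}.Finite})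

/-- inclusion of the product -/
def inc (x : ∀ i, Xs i) : Ys := ⟨fun i => (Zs.pt (x i) : Zs i), by
  have : {j | (Zs.pt (x j) : Zs j) = (Zs.gen : Zs j)} = ∅ := by ext j; simp
  rw [this]; exact finite_empty⟩

def eta (i : ℕ) (x : Xs i) : Zs i := (Zs.pt x : Zs i)

theorem eta_cont (i : ℕ) : Continuous (eta i) := by
  rw [continuous_iff_isClosed]
  intro C hC
  rcases closed_Z.1 hC with rfl | ⟨_, hs⟩
  · simp
  · rw [closed_X]
    right
    refine le_trans ?_ hs
    exact Cardinal.mk_preimage_of_injective (eta i) C (fun a b h => Zs.pt.inj h)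

theorem inc_cont : Continuous inc := by
  apply Continuous.subtype_mk
  apply continuous_pi
  intro i
  exact (eta_cont i).comp (continuous_apply i)

theorem exists_ne (i : ℕ) (a : Xs i) : ∃ b : Xs i, b ≠ a := by
  by_contra h
  push Not at h
  apply univ_not_small i
  have : (univ : Set (Xs i)) ⊆ {a} := fun b _ => h b
  refine small_mono ?_ this
  rw [Cardinal.mk_singleton]; exact le_trans Cardinal.one_le_aleph0 (ka_inf i)

/-- no point of `Ys` lies in every open set meeting the range of `inc` -/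
theorem no_generic (y : Ys) : ¬ ∀ V : Set Ys, IsOpen V → (V ∩ range inc).Nonempty → y ∈ V := by
  intro h
  obtain ⟨j, hj⟩ : ∃ j, y.1 j ≠ (Zs.gen : Zs j) := by
    by_contra hcon
    push Not at hcon
    have h1 : {j | y.1 j = (Zs.gen : Zs j)} = univ := by ext j; simp [hcon j]
    have h2 := y.2
    rw [h1] at h2
    exact Set.infinite_univ h2
  obtain ⟨a, ha⟩ : ∃ a : Xs j, y.1 j = (Zs.pt a : Zs j) := by
    cases hy : y.1 j with
    | gen => exact absurd hy hj
    | pt a => exact ⟨a, rfl⟩
  have hcl : IsClosed ({(Zs.pt a : Zs j)} : Set (Zs j)) := by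
    apply closed_Z_small
    · intro h; exact absurd (mem_singleton_iff.1 h) (by simp)
    · rw [Cardinal.mk_singleton]; exact le_trans Cardinal.one_le_aleph0 (ka_inf j)
  have hVo : IsOpen ((fun z : Ys => z.1 j) ⁻¹' ({(Zs.pt a : Zs j)} : Set (Zs j))ᶜ) :=
    hcl.isOpen_compl.preimage ((continuous_apply j).comp continuous_subtype_val)
  obtain ⟨b, hb⟩ := exists_ne j a
  classical
  have := h _ hVo ⟨inc (fun i => if hi : i = j then hi ▸ b else Classical.choice (neX i)), by
    show (Zs.pt _ : Zs j) ∉ ({(Zs.pt a : Zs j)} : Set (Zs j))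
    simp only [dite_true]
    intro hh
    exact hb (Zs.pt.inj (mem_singleton_iff.1 hh)), ⟨_, rfl⟩⟩
  exact this ha

end Pool.Agent.KDet
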