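import Mathlib
import Pool.Agent.KDet.Basic

set_option autoImplicit false

namespace Pool.Agent.KDet

open Set
open scoped Cardinal

theorem det_univ (i : ℕ) (Y : Type) [TopologicalSpace Y] (hK : KK Y) (f : Xs i → Y) (hf : Continuous f) :
    ∃! y : Y, closure (f '' univ) = closure ({y} : Set Y) := by
  obtain ⟨h0, hg⟩ := hK
  obtain ⟨y, hy⟩ := hg i f hf
  rw [image_univ]
  exact ⟨y, hy, fun z hz => t0_unique (hz.symm.trans hy)⟩

theorem small_irr_X {i : ℕ} {A : Set (Xs i)} (hA : IsIrreducible A) (hs : #A ≤ ka i) : ∃ a, A = {a} := by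
  obtain ⟨⟨a, ha⟩, hirr⟩ := hA
  refine ⟨a, ?_⟩
  ext b
  constructor
  · intro hb
    by_contra hne
    have hne' : b ≠ a := hne
    have h1 : IsOpen (A \ {b})ᶜ := (closed_X.2 (Or.inr (small_mono hs sdiff_subset))).isOpen_compl
    have h2 : IsOpen (A \ {a})ᶜ := (closed_X.2 (Or.inr (small_mono hs sdiff_subset))).isOpen_compl
    obtain ⟨c, hcA, hc1, hc2⟩ := hirr _ _ h1 h2 ⟨b, hb, fun h => h.2 rfl⟩ ⟨a, ha, fun h => h.2 rfl⟩
    have e1 : c = b := by
      by_contra h; exact hc1 ⟨hcA, h⟩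
    have e2 : c = a := by
      by_contra h; exact hc2 ⟨hcA, h⟩
    exact hne' (e1.symm.trans e2)
  · intro hb
    rw [mem_singleton_iff.1 hb]; exact ha

theorem small_irr_Z {i : ℕ} {A : Set (Zs i)} (hA : IsIrreducible A) (hn : (Zs.gen : Zs i) ∉ A) (hs : #A ≤ ka i) : ∃ a, A = {a} := by
  obtain ⟨⟨a, ha⟩, hirr⟩ := hA
  refine ⟨a, ?_⟩
  ext b
  constructor
  · intro hb
    by_contra hne
    have hne' : b ≠ a := hne
    have h1 : IsOpen (A \ {b})ᶜ := (closed_Z_small (fun h => hn h.1) (small_mono hs sdiff_subset)).isOpen_compl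
    have h2 : IsOpen (A \ {a})ᶜ := (closed_Z_small (fun h => hn h.1) (small_mono hs sdiff_subset)).isOpen_compl
    obtain ⟨c, hcA, hc1, hc2⟩ := hirr _ _ h1 h2 ⟨b, hb, fun h => h.2 rfl⟩ ⟨a, ha, fun h => h.2 rfl⟩
    have e1 : c = b := by
      by_contra h; exact hc1 ⟨hcA, h⟩
    have e2 : c = a := by
      by_contra h; exact hc2 ⟨hcA, h⟩
    exact hne' (e1.symm.trans e2)
  · intro hb
    rw [mem_singleton_iff.1 hb]; exact ha

theorem det_irr (i : ℕ) (A : Set (Xs i)) (hA : IsIrreducible A) (hc : IsClosed A)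
    (Y : Type) [TopologicalSpace Y] (hK : KK Y) (f : Xs i → Y) (hf : Continuous f) :
    ∃! y : Y, closure (f '' A) = closure ({y} : Set Y) := by
  rcases closed_X.1 hc with rfl | hs
  · exact det_univ i Y hK f hf
  · obtain ⟨a, rfl⟩ := small_irr_X hA hs
    rw [image_singleton]
    have := hK.1
    exact ⟨f a, rfl, fun z hz => t0_unique hz.symm⟩

theorem no_closure (y : Ys) : closure (range inc) ≠ closure {y} := by
  intro h
  rw [closure_eq_iff] at h
  exact no_generic y (fun V hV hne => (h V hV).1 hne)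

theorem irr_prod : IsIrreducible (univ : Set (∀ i, Xs i)) := by
  classical
  refine ⟨⟨fun i => Classical.choice (neX i), trivial⟩, ?_⟩
  intro U V hU hV ⟨x, _, hx⟩ ⟨y, _, hy⟩
  obtain ⟨I, u, hu, hsu⟩ := isOpen_pi_iff.1 hU x hx
  obtain ⟨J, v, hv, hsv⟩ := isOpen_pi_iff.1 hV y hy
  have key : ∀ j, ∃ t : Xs j, (j ∈ I → t ∈ u j) ∧ (j ∈ J → t ∈ v j) := by
    intro j
    by_cases h1 : j ∈ I
    · by_cases h2 : j ∈ J
      · obtain ⟨t, ht1, ht2⟩ := inter_nonempty (hu j h1).1 (hv j h2).1 ⟨_, (hu j h1).2⟩ ⟨_, (hv j h2).2⟩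
        exact ⟨t, fun _ => ht1, fun _ => ht2⟩
      · exact ⟨x j, fun h => (hu j h).2, fun h => absurd h h2⟩
    · exact ⟨y j, fun h => absurd h h1, fun h => (hv j h).2⟩
  choose t ht using key
  exact ⟨t, trivial, hsu (fun j hj => (ht j).1 hj), hsv (fun j hj => (ht j).2 hj)⟩

theorem main1 :
    ¬ (∀ (K : ∀ (Y : Type) [TopologicalSpace Y], Prop),
    (∀ (Y : Type) [TopologicalSpace Y], K Y → T0Space Y) →
    (∀ (Y : Type) [TopologicalSpace Y], T0Space Y → QuasiSober Y → K Y) →
    ∀ (I : Type) (X : I → Type) [∀ i, TopologicalSpace (X i)] [∀ i, T0Space (X i)]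
      (A : ∀ i, Set (X i)),
      (∀ i, ∀ (Y : Type) [TopologicalSpace Y], K Y →
        ∀ f : X i → Y, Continuous f →
          ∃! y : Y, closure (f '' A i) = closure ({y} : Set Y)) →
      ∀ (Y : Type) [TopologicalSpace Y], K Y →
        ∀ f : (∀ i, X i) → Y, Continuous f →
          ∃! y : Y, closure (f '' Set.pi Set.univ A) = closure ({y} : Set Y)) := by
  intro H
  obtain ⟨y, hy, _⟩ := H (fun Y _ => KK Y) (fun Y _ h => h.1) (fun Y _ h0 hs => KK_sober Y h0 hs) ℕ Xs
    (fun i => univ) (fun i Y _ hK f hf => det_univ i Y hK f hf) Ys KK_Ys inc inc_cont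
  apply no_closure y
  have e : Set.pi Set.univ (fun i => (univ : Set (Xs i))) = univ := by
    ext x; simp
  rw [← hy, e, image_univ]

theorem main2 :
    ¬ (∀ K : (∀ (Y : Type) [TopologicalSpace Y], Prop),
      (∀ (Y : Type) [TopologicalSpace Y], K Y → T0Space Y) →
      (∀ (Y : Type) [TopologicalSpace Y], T0Space Y → QuasiSober Y → K Y) →
      ∀ (I : Type) (X : I → Type) [∀ i, TopologicalSpace (X i)],
        (∀ i, T0Space (X i) ∧ ∀ A : Set (X i), IsIrreducible A → IsClosed A →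
          ∀ (Y : Type) [TopologicalSpace Y], K Y → ∀ f : X i → Y, Continuous f →
            ∃! y : Y, closure (f '' A) = closure {y}) →
        ∀ A : Set (∀ i, X i), IsIrreducible A → IsClosed A →
          ∀ (Y : Type) [TopologicalSpace Y], K Y → ∀ f : (∀ i, X i) → Y, Continuous f →
            ∃! y : Y, closure (f '' A) = closure {y}) := by
  intro H
  obtain ⟨y, hy, _⟩ := H (fun Y _ => KK Y) (fun Y _ h => h.1) (fun Y _ h0 hs => KK_sober Y h0 hs) ℕ Xs
    (fun i => ⟨t0X i, fun A hA hc Y _ hK f hf => det_irr i A hA hc Y hK f hf⟩) univ irr_prod isClosed_univ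
    Ys KK_Ys inc inc_cont
  apply no_closure y
  rw [← hy, image_univ]

/-- closed K-determined sets -/
abbrev PH (X : Type) [TopologicalSpace X] : Type :=
  {A : Set X // IsClosed A ∧ ∀ (Y : Type) [TopologicalSpace Y], KK Y →
            ∀ f : X → Y, Continuous f → ∃! y : Y, closure (f '' A) = closure {y}}

abbrev PHtop (X : Type) [TopologicalSpace X] : TopologicalSpace (PH X) :=
  TopologicalSpace.generateFrom {S | ∃ U : Set X, IsOpen U ∧ S = {A | (A.1 ∩ U).Nonempty}}

theorem KK_homeo (X Y : Type) [TopologicalSpace X] [TopologicalSpace Y] (e : X ≃ₜ Y) (h : KK X) : KK Y := by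
  obtain ⟨h0, hg⟩ := h
  refine ⟨e.symm.isEmbedding.t0Space, ?_⟩
  intro i g hgc
  obtain ⟨x, hx⟩ := hg i (e.symm ∘ g) (e.symm.continuous.comp hgc)
  refine ⟨e x, ?_⟩
  rw [closure_eq_iff] at hx ⊢
  intro V hV
  have h1 := hx (e ⁻¹' V) (hV.preimage e.continuous)
  have h2 : (V ∩ range g).Nonempty ↔ (e ⁻¹' V ∩ range (e.symm ∘ g)).Nonempty := by
    constructor
    · rintro ⟨_, hv, ⟨t, rfl⟩⟩
      exact ⟨e.symm (g t), by show e (e.symm (g t)) ∈ V; rwa [e.apply_symm_apply], ⟨t, rfl⟩⟩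
    · rintro ⟨_, hv, ⟨t, rfl⟩⟩
      refine ⟨g t, ?_, ⟨t, rfl⟩⟩
      have : e (e.symm (g t)) ∈ V := hv
      rwa [e.apply_symm_apply] at this
  rw [h2, h1]
  rfl

theorem KK_adequate (X : Type) [TopologicalSpace X] (_hX : T0Space X) : @KK (PH X) (PHtop X) := by
  letI : TopologicalSpace (PH X) := PHtop X
  have hsub : ∀ U : Set X, IsOpen U → IsOpen {A : PH X | (A.1 ∩ U).Nonempty} :=
    fun U hU => TopologicalSpace.isOpen_generateFrom_of_mem ⟨U, hU, rfl⟩
  refine ⟨?_, ?_⟩
  · rw [t0Space_iff_inseparable]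
    intro A B hAB
    have key : ∀ A B : PH X, Inseparable A B → A.1 ⊆ B.1 := by
      intro A B hAB x hx
      by_contra hxB
      have h1 := (hAB.mem_open_iff (hsub B.1ᶜ B.2.1.isOpen_compl)).1 ⟨x, hx, hxB⟩
      obtain ⟨z, hz1, hz2⟩ := h1
      exact hz2 hz1
    exact Subtype.ext (Subset.antisymm (key A B hAB) (key B A hAB.symm))
  · intro i g hg
    -- the candidate
    set B : Set X := closure (⋃ t, (g t).1) with hB
    have hBU : ∀ U : Set X, IsOpen U → ((B ∩ U).Nonempty ↔ ∃ t, ((g t).1 ∩ U).Nonempty) := by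
      intro U hU
      rw [hB, closure_inter_open_nonempty_iff hU]
      constructor
      · rintro ⟨x, hx, hxU⟩
        obtain ⟨t, ht⟩ := mem_iUnion.1 hx
        exact ⟨t, x, ht, hxU⟩
      · rintro ⟨t, x, hx, hxU⟩
        exact ⟨x, mem_iUnion.2 ⟨t, hx⟩, hxU⟩
    have hdet : ∀ (Y : Type) [TopologicalSpace Y], KK Y →
            ∀ f : X → Y, Continuous f → ∃! y : Y, closure (f '' B) = closure {y} := by
      intro Y _ hK f hf
      choose h hh using fun t => (((g t).2.2 Y hK f hf).exists)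
      have hh' : ∀ t (V : Set Y), IsOpen V → (((g t).1 ∩ f ⁻¹' V).Nonempty ↔ h t ∈ V) := by
        intro t V hV
        rw [← (closure_eq_iff _ _).1 (hh t) V hV]
        constructor
        · rintro ⟨x, hx, hxV⟩; exact ⟨f x, hxV, ⟨x, hx, rfl⟩⟩
        · rintro ⟨_, hxV, ⟨x, hx, rfl⟩⟩; exact ⟨x, hx, hxV⟩
      have hc : Continuous h := by
        rw [continuous_def]
        intro V hV
        have : h ⁻¹' V = g ⁻¹' {A : PH X | (A.1 ∩ f ⁻¹' V).Nonempty} := by
          ext t
          exact (hh' t V hV).symm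
        rw [this]
        exact (hsub _ (hV.preimage hf)).preimage hg
      obtain ⟨y, hy⟩ := hK.2 i h hc
      have h0 := hK.1
      have hy2 : closure (f '' B) = closure {y} := by
        rw [closure_eq_iff] at hy ⊢
        intro V hV
        rw [← hy V hV]
        constructor
        · rintro ⟨_, hxV, ⟨x, hx, rfl⟩⟩
          obtain ⟨t, ht⟩ := (hBU (f ⁻¹' V) (hV.preimage hf)).1 ⟨x, hx, hxV⟩
          exact ⟨h t, (hh' t V hV).1 ht, ⟨t, rfl⟩⟩
        · rintro ⟨_, hv, ⟨t, rfl⟩⟩
          obtain ⟨x, hx, hxV⟩ := (hBU (f ⁻¹' V) (hV.preimage hf)).2 ⟨t, (hh' t V hV).2 hv⟩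
          exact ⟨f x, hxV, ⟨x, hx, rfl⟩⟩
      exact ⟨y, hy2, fun z hz => t0_unique (hz.symm.trans hy2)⟩
    refine ⟨⟨B, isClosed_closure, hdet⟩, ?_⟩
    rw [closure_eq_iff]
    intro V hV
    have hup : ∀ V : Set (PH X), IsOpen V → ∀ t, g t ∈ V → (⟨B, isClosed_closure, hdet⟩ : PH X) ∈ V := by
      intro V hV
      induction hV with
      | basic S hS =>
        obtain ⟨U, hU, rfl⟩ := hS
        intro t ht
        exact (hBU U hU).2 ⟨t, ht⟩
      | univ => intro t _; trivial
      | inter S T _ _ ihS ihT => intro t ht; exact ⟨ihS t ht.1, ihT t ht.2⟩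
      | sUnion S _ ih =>
        intro t ht
        obtain ⟨T, hT, htT⟩ := ht
        exact ⟨T, hT, ih T hT t htT⟩
    have hdn : ∀ V : Set (PH X), IsOpen V → (⟨B, isClosed_closure, hdet⟩ : PH X) ∈ V → (g ⁻¹' V).Nonempty := by
      intro V hV
      induction hV with
      | basic S hS =>
        obtain ⟨U, hU, rfl⟩ := hS
        intro h
        obtain ⟨t, ht⟩ := (hBU U hU).1 h
        exact ⟨t, ht⟩
      | univ => intro _; obtain ⟨t⟩ := neX i; exact ⟨t, trivial⟩
      | inter S T hS hT ihS ihT =>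
        intro h
        have hSo : IsOpen S := hS
        have hTo : IsOpen T := hT
        exact inter_nonempty (hSo.preimage hg) (hTo.preimage hg) (ihS h.1) (ihT h.2)
      | sUnion S _ ih =>
        intro h
        obtain ⟨T, hT, hBT⟩ := h
        obtain ⟨t, ht⟩ := ih T hT hBT
        exact ⟨t, T, hT, ht⟩
    constructor
    · rintro ⟨_, hv, ⟨t, rfl⟩⟩
      exact hup V hV t hv
    · intro h
      obtain ⟨t, ht⟩ := hdn V hV h
      exact ⟨g t, ht, ⟨t, rfl⟩⟩

theorem KK_Zs (i : ℕ) : KK (Zs i) := by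
  apply KK_sober _ (t0Z i)
  refine ⟨?_⟩
  intro S hS hc
  rcases closed_Z.1 hc with rfl | ⟨hn, hs⟩
  · refine ⟨Zs.gen, ?_⟩
    show closure _ = _
    rcases closed_Z.1 (isClosed_closure (s := ({(Zs.gen : Zs i)} : Set (Zs i)))) with h | h
    · exact h
    · exact absurd (subset_closure (mem_singleton _)) h.1
  · obtain ⟨a, rfl⟩ := small_irr_Z hS hn hs
    exact ⟨a, hc.closure_eq⟩

theorem refl_Zs (i : ℕ) (Y : Type) [TopologicalSpace Y] (hK : KK Y) (f : Xs i → Y) (hf : Continuous f) :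
    ∃! g : Zs i → Y, Continuous g ∧ g ∘ eta i = f := by
  obtain ⟨y, hy⟩ := hK.2 i f hf
  have h0 := hK.1
  rw [closure_eq_iff] at hy
  refine ⟨fun z => match z with | Zs.gen => y | Zs.pt x => f x, ⟨?_, ?_⟩, ?_⟩
  · rw [continuous_def]
    intro V hV
    by_cases hne : (V ∩ range f).Nonempty
    · have hyV := (hy V hV).1 hne
      rw [← isClosed_compl_iff, closed_Z]
      right
      refine ⟨fun h => h hyV, ?_⟩
      have hsub : ((fun z : Zs i => match z with | Zs.gen => y | Zs.pt x => f x) ⁻¹' V)ᶜ ⊆ eta i '' ((f ⁻¹' V)ᶜ) := by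
        intro z hz
        cases z with
        | gen => exact absurd hyV hz
        | pt x => exact ⟨x, hz, rfl⟩
      refine small_mono ?_ hsub
      refine le_trans Cardinal.mk_image_le ?_
      rcases closed_X.1 (hV.preimage hf).isClosed_compl with h | h
      · exfalso
        obtain ⟨_, hv, ⟨t, rfl⟩⟩ := hne
        have : t ∈ (f ⁻¹' V)ᶜ := by rw [h]; trivial
        exact this hv
      · exact h
    · have hyV : y ∉ V := fun h => hne ((hy V hV).2 h)
      have : (fun z : Zs i => match z with | Zs.gen => y | Zs.pt x => f x) ⁻¹' V = ∅ := by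
        ext z
        cases z with
        | gen => simpa using hyV
        | pt x =>
          simp only [mem_preimage, mem_empty_iff_false, iff_false]
          intro h
          exact hne ⟨f x, h, ⟨x, rfl⟩⟩
      rw [this]; exact isOpen_empty
  · rfl
  · rintro g ⟨hgc, hgf⟩
    have hpt : ∀ x, g (Zs.pt x) = f x := fun x => congrFun hgf x
    have hgen : closure ({g Zs.gen} : Set Y) = closure {y} := by
      rw [closure_eq_iff]
      intro V hV
      rw [← hy V hV]
      constructor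
      · rintro ⟨_, hv, hh⟩
        rw [mem_singleton_iff.1 hh] at hv
        have hopen : IsOpen (g ⁻¹' V) := hV.preimage hgc
        by_contra hne
        have hsub : (g ⁻¹' V)ᶜ = ({(Zs.gen : Zs i)} : Set (Zs i))ᶜ := by
          ext z
          cases z with
          | gen => simp; exact hv
          | pt x =>
            simp only [mem_compl_iff, mem_preimage, mem_singleton_iff, reduceCtorEq, not_false_eq_true, iff_true]
            rw [hpt x]
            intro h
            exact hne ⟨f x, h, ⟨x, rfl⟩⟩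
        have hc := hopen.isClosed_compl
        rw [hsub] at hc
        rcases closed_Z.1 hc with h | ⟨_, h⟩
        · have : (Zs.gen : Zs i) ∈ ({(Zs.gen : Zs i)} : Set (Zs i))ᶜ := by rw [h]; trivial
          exact this rfl
        · apply univ_not_small i
          have hinj : (univ : Set (Xs i)) = eta i ⁻¹' (({(Zs.gen : Zs i)} : Set (Zs i))ᶜ) := by
            ext x; simp [eta]
          rw [hinj]
          exact le_trans (Cardinal.mk_preimage_of_injective (eta i) _ (fun a b h => Zs.pt.inj h)) h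
      · rintro ⟨_, hv, ⟨x, rfl⟩⟩
        refine ⟨g Zs.gen, ?_, rfl⟩
        have : (Zs.gen : Zs i) ∈ g ⁻¹' V := none_mem_open (hV.preimage hgc) ⟨Zs.pt x, by
          show g (Zs.pt x) ∈ V
          rw [hpt x]; exact hv⟩
        exact this
    funext z
    cases z with
    | gen => exact t0_unique hgen
    | pt x => exact hpt x

theorem main3 :
    ¬ (∀ (K : ∀ (X : Type) [TopologicalSpace X], Prop),
    (∀ (X : Type) [TopologicalSpace X], K X → T0Space X) →
    (∀ (X : Type) [TopologicalSpace X], T0Space X → QuasiSober X → K X) →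
    (∀ (X Y : Type) [TopologicalSpace X] [TopologicalSpace Y], (X ≃ₜ Y) → K X → K Y) →
    (∀ (X : Type) [TopologicalSpace X], T0Space X →
      @K {A : Set X // IsClosed A ∧ ∀ (Y : Type) [TopologicalSpace Y], K Y →
            ∀ f : X → Y, Continuous f → ∃! y : Y, closure (f '' A) = closure {y}}
        (TopologicalSpace.generateFrom
          {S | ∃ U : Set X, IsOpen U ∧ S = {A | (A.1 ∩ U).Nonempty}})) →
    ∀ (I : Type) (X : I → Type) [∀ i, TopologicalSpace (X i)], (∀ i, T0Space (X i)) →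
    ∀ (R : I → Type) [∀ i, TopologicalSpace (R i)] (η : ∀ i, X i → R i),
      (∀ i, K (R i) ∧ Continuous (η i) ∧
        ∀ (Y : Type) [TopologicalSpace Y], K Y → ∀ f : X i → Y, Continuous f →
          ∃! g : R i → Y, Continuous g ∧ g ∘ η i = f) →
      K (∀ i, R i) ∧
      Continuous (fun (x : ∀ i, X i) (i : I) => η i (x i)) ∧
      ∀ (Y : Type) [TopologicalSpace Y], K Y → ∀ f : (∀ i, X i) → Y, Continuous f →
        ∃! g : (∀ i, R i) → Y, Continuous g ∧
          g ∘ (fun (x : ∀ i, X i) (i : I) => η i (x i)) = f) := by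
  intro H
  obtain ⟨_, _, hu⟩ := H (fun Y _ => KK Y) (fun Y _ h => h.1) (fun Y _ h0 hs => KK_sober Y h0 hs)
    (fun X Y _ _ e h => KK_homeo X Y e h) (fun X _ hX => KK_adequate X hX) ℕ Xs (fun i => t0X i) Zs eta
    (fun i => ⟨KK_Zs i, eta_cont i, fun Y _ hK f hf => refl_Zs i Y hK f hf⟩)
  obtain ⟨g, ⟨hgc, hg⟩, _⟩ := hu Ys KK_Ys inc inc_cont
  apply no_generic (g (fun i => Zs.gen))
  rintro V hV ⟨_, hv, ⟨x, rfl⟩⟩
  have h1 : (fun i => eta i (x i)) ∈ g ⁻¹' V := by
    show g (fun i => eta i (x i)) ∈ V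
    have := congrFun hg x
    simp only [Function.comp] at this
    rw [this]; exact hv
  obtain ⟨I, u, hu', hsub⟩ := isOpen_pi_iff.1 (hV.preimage hgc) _ h1
  exact hsub (fun j hj => none_mem_open (hu' j hj).1 ⟨_, (hu' j hj).2⟩)

end Pool.Agent.KDet
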