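import Mathlib
import Pool.Agent.KDet.Fin

set_option autoImplicit false

namespace Pool.Agent.KDet

open Set
open scoped Cardinal

theorem exists_generic {Y : Type} [TopologicalSpace Y] [QuasiSober Y] {i : ℕ} (h : Xs i → Y) (hc : Continuous h) :
    ∃ y, closure (range h) = closure {y} := by
  have h1 : IsIrreducible (range h) := by
    rw [← image_univ]
    exact (IrreducibleSpace.isIrreducible_univ (Xs i)).image h hc.continuousOn
  obtain ⟨y, hy⟩ := QuasiSober.sober h1.closure isClosed_closure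
  exact ⟨y, hy.symm⟩

theorem lemA {Y : Type} [TopologicalSpace Y] [T0Space Y] (B : Set Y) (hB : KK ↥B) {i : ℕ}
    (h : Xs i → Y) (hc : Continuous h) (hm : ∀ t, h t ∈ B) (y : Y) (hy : closure (range h) = closure {y}) : y ∈ B := by
  obtain ⟨a, ha⟩ := hB.2 i (fun t => ⟨h t, hm t⟩) (hc.subtype_mk hm)
  have : closure ({y} : Set Y) = closure {a.1} := by
    rw [← hy, closure_eq_iff]
    rw [closure_eq_iff] at ha
    intro V hV
    have h1 := ha (Subtype.val ⁻¹' V) (hV.preimage continuous_subtype_val)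
    have h2 : (V ∩ range h).Nonempty ↔ ((Subtype.val ⁻¹' V : Set ↥B) ∩ range (fun t => (⟨h t, hm t⟩ : ↥B))).Nonempty := by
      constructor
      · rintro ⟨_, hv, ⟨t, rfl⟩⟩
        exact ⟨⟨h t, hm t⟩, hv, ⟨t, rfl⟩⟩
      · rintro ⟨_, hv, ⟨t, rfl⟩⟩
        exact ⟨h t, hv, ⟨t, rfl⟩⟩
    rw [h2, h1]
    rfl
  rw [t0_unique this]
  exact a.2

theorem lemB {Y : Type} [TopologicalSpace Y] [T0Space Y] [QuasiSober Y] (B : Set Y)
    (H : ∀ (i : ℕ) (h : Xs i → Y), Continuous h → (∀ t, h t ∈ B) → ∀ y, closure (range h) = closure {y} → y ∈ B) :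
    KK ↥B := by
  refine ⟨inferInstance, ?_⟩
  intro i g hg
  have hgc : Continuous (fun t => (g t).1) := continuous_subtype_val.comp hg
  obtain ⟨y, hy⟩ := exists_generic (fun t => (g t).1) hgc
  have hyB := H i (fun t => (g t).1) hgc (fun t => (g t).2) y hy
  refine ⟨⟨y, hyB⟩, ?_⟩
  rw [closure_eq_iff] at hy ⊢
  intro V hV
  obtain ⟨W, hW, rfl⟩ := isOpen_induced_iff.1 hV
  have h1 := hy W hW
  have h2 : (W ∩ range (fun t => (g t).1)).Nonempty ↔ ((Subtype.val ⁻¹' W : Set ↥B) ∩ range g).Nonempty := by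
    constructor
    · rintro ⟨_, hv, ⟨t, rfl⟩⟩
      exact ⟨g t, hv, ⟨t, rfl⟩⟩
    · rintro ⟨_, hv, ⟨t, rfl⟩⟩
      exact ⟨(g t).1, hv, ⟨t, rfl⟩⟩
  rw [← h2, h1]
  rfl

theorem main4 :
    ¬ (∀ (K : (X : Type) → [TopologicalSpace X] → Prop),
    (∀ (X : Type) [TopologicalSpace X], K X → T0Space X) →
    (∀ (X : Type) [TopologicalSpace X] [T0Space X] [QuasiSober X], K X) →
    (∀ (X Y : Type) [TopologicalSpace X] [TopologicalSpace Y],
        Nonempty (X ≃ₜ Y) → K X → K Y) →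
    (∀ (Y : Type) [TopologicalSpace Y] [T0Space Y] [QuasiSober Y] (S : Set (Set Y)),
        (∀ A ∈ S, K ↥A) → K ↥(⋂₀ S)) →
    (∀ (X Y : Type) [TopologicalSpace X] [TopologicalSpace Y] [T0Space X] [QuasiSober X]
        [T0Space Y] [QuasiSober Y] (f : X → Y), Continuous f →
        ∀ B : Set Y, K ↥B → K ↥(f ⁻¹' B)) →
    ∀ (I : Type) (X R : I → Type) [∀ i, TopologicalSpace (X i)] [∀ i, T0Space (X i)]
      [∀ i, TopologicalSpace (R i)] (η : ∀ i, X i → R i),
      (∀ i, Continuous (η i) ∧ K (R i) ∧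
        ∀ (Z : Type) [TopologicalSpace Z], K Z → ∀ g : X i → Z, Continuous g →
          ∃! h : R i → Z, Continuous h ∧ h ∘ η i = g) →
      (Continuous (fun (x : ∀ i, X i) (i : I) => η i (x i)) ∧ K (∀ i, R i) ∧
        ∀ (Z : Type) [TopologicalSpace Z], K Z → ∀ g : (∀ i, X i) → Z, Continuous g →
          ∃! h : (∀ i, R i) → Z, Continuous h ∧
            (h ∘ fun (x : ∀ i, X i) (i : I) => η i (x i)) = g)) := by
  intro H
  obtain ⟨_, _, hu⟩ := H (fun Y _ => KK Y) (fun Y _ h => h.1) (fun Y _ _ _ => KK_sober Y inferInstance inferInstance)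
    (fun X Y _ _ ⟨e⟩ h => KK_homeo X Y e h)
    (fun Y _ _ _ S hS => lemB _ (fun i h hc hm y hy => by
      intro A hA
      exact lemA A (hS A hA) h hc (fun t => hm t A hA) y hy))
    (fun X Y _ _ _ _ _ _ f hf B hB => lemB _ (fun i h hc hm y hy => by
      show f y ∈ B
      refine lemA B hB (f ∘ h) (hf.comp hc) hm (f y) ?_
      rw [closure_eq_iff] at hy ⊢
      intro V hV
      have h1 := hy (f ⁻¹' V) (hV.preimage hf)
      have h2 : (f ⁻¹' V ∩ range h).Nonempty ↔ (V ∩ range (f ∘ h)).Nonempty := by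
        constructor
        · rintro ⟨_, hv, ⟨t, rfl⟩⟩
          exact ⟨f (h t), hv, ⟨t, rfl⟩⟩
        · rintro ⟨_, hv, ⟨t, rfl⟩⟩
          exact ⟨h t, hv, ⟨t, rfl⟩⟩
      rw [← h2, h1]
      rfl))
    ℕ Xs Zs eta
    (fun i => ⟨eta_cont i, KK_Zs i, fun Y _ hK f hf => refl_Zs i Y hK f hf⟩)
  obtain ⟨g, ⟨hgc, hg⟩, _⟩ := hu Ys KK_Ys inc inc_cont
  apply no_generic (g (fun i => Zs.gen))
  rintro V hV ⟨_, hv, ⟨x, rfl⟩⟩
  have h1 : (fun i => eta i (x i)) ∈ g ⁻¹' V := by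
    show g (fun i => eta i (x i)) ∈ V
    have := congrFun hg x
    simp only [Function.comp] at this
    rw [this]; exact hv
  obtain ⟨I, u, hu', hsub⟩ := isOpen_pi_iff.1 (hV.preimage hgc) _ h1
  exact hsub (fun j hj => none_mem_open (hu' j hj).1 ⟨_, (hu' j hj).2⟩)

end Pool.Agent.KDet
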