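import Mathlib
import Pool.Agent.KDet.KL

set_option autoImplicit false

namespace Pool.Agent.KDet

open Set
open scoped Cardinal

/-- nonempty compact saturated subsets -/
def PS (X : Type) [TopologicalSpace X] : Type :=
  {K : Set X // K.Nonempty ∧ IsCompact K ∧ ∀ x, (∀ U : Set X, IsOpen U → K ⊆ U → x ∈ U) → x ∈ K}

/-- upper Vietoris topology -/
instance PStop (X : Type) [TopologicalSpace X] : TopologicalSpace (PS X) :=
  TopologicalSpace.generateFrom {S | ∃ U : Set X, IsOpen U ∧ S = {K : PS X | K.1 ⊆ U}}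

theorem PS_box (X : Type) [TopologicalSpace X] (U : Set X) (hU : IsOpen U) : IsOpen {K : PS X | K.1 ⊆ U} :=
  TopologicalSpace.isOpen_generateFrom_of_mem ⟨U, hU, rfl⟩

/-- every open set in the Smyth power space is a union of boxes -/
theorem PS_basis (X : Type) [TopologicalSpace X] (V : Set (PS X)) (hV : IsOpen V) (K : PS X) (hK : K ∈ V) :
    ∃ U : Set X, IsOpen U ∧ K.1 ⊆ U ∧ {L : PS X | L.1 ⊆ U} ⊆ V := by
  induction hV with
  | basic S hS =>
    obtain ⟨U, hU, rfl⟩ := hS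
    exact ⟨U, hU, hK, Subset.rfl⟩
  | univ => exact ⟨univ, isOpen_univ, subset_univ _, fun _ _ => trivial⟩
  | inter S T _ _ ihS ihT =>
    obtain ⟨U1, h1, h2, h3⟩ := ihS hK.1
    obtain ⟨U2, k1, k2, k3⟩ := ihT hK.2
    exact ⟨U1 ∩ U2, h1.inter k1, subset_inter h2 k2, fun L hL =>
      ⟨h3 (hL.trans inter_subset_left), k3 (hL.trans inter_subset_right)⟩⟩
  | sUnion S _ ih =>
    obtain ⟨T, hT, hKT⟩ := hK
    obtain ⟨U, h1, h2, h3⟩ := ih T hT hKT
    exact ⟨U, h1, h2, fun L hL => ⟨T, hT, h3 hL⟩⟩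

theorem PS_t0 (X : Type) [TopologicalSpace X] : T0Space (PS X) := by
  rw [t0Space_iff_inseparable]
  intro K L hKL
  have key : ∀ K L : PS X, Inseparable K L → K.1 ⊆ L.1 := by
    intro K L hKL x hx
    apply L.2.2.2
    intro U hU hLU
    have := (hKL.mem_open_iff (PS_box X U hU)).2 hLU
    exact this hx
  exact Subtype.ext (Subset.antisymm (key K L hKL) (key L K hKL.symm))

/-- a generic criterion in the Smyth power space -/
theorem PS_generic (X : Type) [TopologicalSpace X] {i : ℕ} (g : Xs i → PS X) (hg : Continuous g)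
    (Q : PS X) (hQ : ∀ U : Set X, IsOpen U → (Q.1 ⊆ U ↔ ∃ t, (g t).1 ⊆ U)) :
    closure (range g) = closure {Q} := by
  rw [closure_eq_iff]
  intro V hV
  constructor
  · rintro ⟨_, hv, ⟨t, rfl⟩⟩
    obtain ⟨U, h1, h2, h3⟩ := PS_basis X V hV _ hv
    exact h3 ((hQ U h1).2 ⟨t, h2⟩)
  · intro h
    obtain ⟨U, h1, h2, h3⟩ := PS_basis X V hV _ h
    obtain ⟨t, ht⟩ := (hQ U h1).1 h2
    exact ⟨g t, h3 ht, ⟨t, rfl⟩⟩

theorem open_superset {i : ℕ} {U V : Set (Xs i)} (hU : IsOpen U) (hne : U.Nonempty) (h : U ⊆ V) : IsOpen V := by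
  rw [← isClosed_compl_iff, closed_X]
  right
  rcases closed_X.1 hU.isClosed_compl with h1 | h1
  · rw [compl_univ_iff] at h1; exact absurd h1 hne.ne_empty
  · exact small_mono h1 (compl_subset_compl.2 h)

/-- `KK` is a Smyth category -/
theorem KK_Smyth (X : Type) [TopologicalSpace X] (hX : KK X) : KK (PS X) := by
  refine ⟨PS_t0 X, ?_⟩
  intro i g hg
  have h0 := hX.1
  -- the open filter
  set F : Set (Set X) := {U | IsOpen U ∧ ∃ t, (g t).1 ⊆ U} with hF
  have key : ∀ U : Set X, IsOpen U → (⋂₀ F) ⊆ U → ∃ t, (g t).1 ⊆ U := by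
    intro U hU hsub
    by_contra hcon
    push Not at hcon
    -- minimal closed set
    have hz : ∃ A : Set X, Minimal (fun A => IsClosed A ∧ A ⊆ Uᶜ ∧ ∀ t, ((g t).1 ∩ A).Nonempty) A := by
      have := zorn_superset_nonempty {A : Set X | IsClosed A ∧ A ⊆ Uᶜ ∧ ∀ t, ((g t).1 ∩ A).Nonempty} ?_ Uᶜ ?_
      · obtain ⟨A, _, hA⟩ := this
        exact ⟨A, hA⟩
      · intro c hc hchain hcne
        refine ⟨⋂₀ c, ⟨?_, ?_, ?_⟩, fun s hs => sInter_subset_of_mem hs⟩
        · exact isClosed_sInter (fun A hA => (hc hA).1)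
        · obtain ⟨A, hA⟩ := hcne
          exact (sInter_subset_of_mem hA).trans (hc hA).2.1
        · intro t
          have : Nonempty c := hcne.to_subtype
          have hdir : Directed (· ⊇ ·) (fun A : c => A.1) := by
            intro A B
            rcases hchain.total A.2 B.2 with h | h
            · exact ⟨A, Subset.rfl, h⟩
            · exact ⟨B, h, Subset.rfl⟩
          have := (g t).2.2.1.inter_iInter_nonempty (fun A : c => A.1) (fun A => (hc A.2).1) ?_
          · rwa [sInter_eq_iInter]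
          · intro u
            obtain ⟨A, hA⟩ := hdir.finset_le u
            obtain ⟨x, hx1, hx2⟩ := (hc A.2).2.2 t
            exact ⟨x, hx1, mem_iInter₂.2 (fun B hB => hA B hB hx2)⟩
      · refine ⟨hU.isClosed_compl, Subset.rfl, ?_⟩
        intro t
        obtain ⟨x, hx, hxU⟩ := not_subset.1 (hcon t)
        exact ⟨x, hx, hxU⟩
    obtain ⟨A, hA⟩ := hz
    obtain ⟨hAc, hAU, hAm⟩ := hA.prop
    choose s hs using hAm
    have hmeet : ∀ V : Set X, IsOpen V → (V ∩ A).Nonempty → ∃ O : Set (Xs i), IsOpen O ∧ O.Nonempty ∧ O ⊆ s ⁻¹' V := by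
      intro V hV hVA
      have hnot : ¬ (∀ t, ((g t).1 ∩ (A \ V)).Nonempty) := by
        intro hall
        have hcl : IsClosed (A \ V) := hAc.sdiff hV
        have := hA.le_of_le ⟨hcl, sdiff_subset.trans hAU, hall⟩ sdiff_subset
        obtain ⟨x, hxV, hxA⟩ := hVA
        exact (this hxA).2 hxV
      push Not at hnot
      obtain ⟨t0, ht0⟩ := hnot
      refine ⟨g ⁻¹' {K : PS X | K.1 ⊆ (A \ V)ᶜ}, ?_, ⟨t0, ?_⟩, ?_⟩
      · exact (PS_box X _ (hAc.sdiff hV).isOpen_compl).preimage hg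
      · intro x hx hxA
        have : x ∈ (g t0).1 ∩ (A \ V) := ⟨hx, hxA⟩
        rw [ht0] at this
        exact this
      · intro t ht
        by_contra hv
        exact ht (hs t).1 ⟨(hs t).2, hv⟩
    have hsc : Continuous s := by
      rw [continuous_def]
      intro V hV
      by_cases hVA : (V ∩ A).Nonempty
      · obtain ⟨O, h1, h2, h3⟩ := hmeet V hV hVA
        exact open_superset h1 h2 h3
      · have : s ⁻¹' V = ∅ := by
          ext t
          simp only [mem_preimage, mem_empty_iff_false, iff_false]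
          intro h
          exact hVA ⟨s t, h, (hs t).2⟩
        rw [this]; exact isOpen_empty
    obtain ⟨a, ha⟩ := hX.2 i s hsc
    rw [closure_eq_iff] at ha
    have haA : a ∈ A := by
      by_contra h
      obtain ⟨_, hv, ⟨t, rfl⟩⟩ := (ha Aᶜ hAc.isOpen_compl).2 h
      exact hv (hs t).2
    have haF : a ∈ ⋂₀ F := by
      rintro W ⟨hW, t, ht⟩
      apply (ha W hW).1
      obtain ⟨O, _, ⟨t', ht'⟩, h3⟩ := hmeet W hW ⟨s t, ht (hs t).1, (hs t).2⟩
      exact ⟨s t', h3 ht', ⟨t', rfl⟩⟩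
    exact hAU haA (hsub haF)
  have hne : (⋂₀ F).Nonempty := by
    by_contra h
    rw [not_nonempty_iff_eq_empty] at h
    obtain ⟨t, ht⟩ := key ∅ isOpen_empty (by rw [h])
    obtain ⟨x, hx⟩ := (g t).2.1
    exact ht hx
  have hcomp : IsCompact (⋂₀ F) := by
    apply isCompact_of_finite_subcover
    intro ι U hUo hUc
    obtain ⟨t, ht⟩ := key (⋃ j, U j) (isOpen_iUnion hUo) hUc
    obtain ⟨u, hu⟩ := (g t).2.2.1.elim_finite_subcover U hUo ht
    refine ⟨u, ?_⟩
    exact sInter_subset_of_mem ⟨isOpen_biUnion (fun j _ => hUo j), t, hu⟩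
  have hsat : ∀ x, (∀ U : Set X, IsOpen U → (⋂₀ F) ⊆ U → x ∈ U) → x ∈ ⋂₀ F := by
    intro x hx U hU
    exact hx U hU.1 (sInter_subset_of_mem hU)
  refine ⟨⟨⋂₀ F, hne, hcomp, hsat⟩, ?_⟩
  apply PS_generic X g hg
  intro U hU
  constructor
  · intro h; exact key U hU h
  · rintro ⟨t, ht⟩
    exact sInter_subset_of_mem ⟨hU, t, ht⟩

end Pool.Agent.KDet
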