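import Mathlib
import Pool.Agent.KDet.Smyth

set_option autoImplicit false

namespace Pool.Agent.KDet

open Set
open scoped Cardinal

/-- disjoint union of countably many spaces plus a point `inf` whose neighbourhoods contain
all but finitely many of the summands -/
inductive Op (A : ℕ → Type) : Type
  | inf : Op A
  | pt : (i : ℕ) → A i → Op A

instance opTop (A : ℕ → Type) [∀ i, TopologicalSpace (A i)] : TopologicalSpace (Op A) where
  IsOpen U := (∀ i, IsOpen {x : A i | Op.pt i x ∈ U}) ∧ (Op.inf ∈ U → {i | ¬ ∀ x : A i, Op.pt i x ∈ U}.Finite)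
  isOpen_univ := ⟨fun i => by simp, fun _ => by simp⟩
  isOpen_inter := by
    rintro U V ⟨hU1, hU2⟩ ⟨hV1, hV2⟩
    refine ⟨fun i => (hU1 i).inter (hV1 i), ?_⟩
    intro h
    apply ((hU2 h.1).union (hV2 h.2)).subset
    intro i hi
    by_contra hc
    rw [mem_union, not_or] at hc
    apply hi
    intro x
    exact ⟨not_not.1 hc.1 x, not_not.1 hc.2 x⟩
  isOpen_sUnion := by
    intro S hS
    refine ⟨fun i => ?_, ?_⟩
    · have : {x : A i | Op.pt i x ∈ ⋃₀ S} = ⋃ U ∈ S, {x : A i | Op.pt i x ∈ U} := by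
        ext x; simp
      rw [this]
      exact isOpen_biUnion (fun U hU => (hS U hU).1 i)
    · rintro ⟨U, hU, h⟩
      apply ((hS U hU).2 h).subset
      intro i hi hc
      exact hi (fun x => ⟨U, hU, hc x⟩)

section Op

variable {A : ℕ → Type} [∀ i, TopologicalSpace (A i)]

theorem op_open_iff (U : Set (Op A)) : IsOpen U ↔
    (∀ i, IsOpen {x : A i | Op.pt i x ∈ U}) ∧ (Op.inf ∈ U → {i | ¬ ∀ x : A i, Op.pt i x ∈ U}.Finite) := Iff.rfl

theorem op_img_open (i : ℕ) (V : Set (A i)) (hV : IsOpen V) : IsOpen (Op.pt i '' V : Set (Op A)) := by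
  rw [op_open_iff]
  refine ⟨?_, ?_⟩
  · intro j
    by_cases h : j = i
    · subst h
      have : {x : A j | Op.pt j x ∈ (Op.pt j '' V : Set (Op A))} = V := by
        ext x
        constructor
        · rintro ⟨y, hy, hh⟩
          have := (Op.pt.inj hh).2
          rw [eq_of_heq this] at hy
          exact hy
        · intro hx; exact ⟨x, hx, rfl⟩
      rw [this]; exact hV
    · have : {x : A j | Op.pt j x ∈ (Op.pt i '' V : Set (Op A))} = ∅ := by
        ext x
        simp only [mem_empty_iff_false, iff_false]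
        rintro ⟨y, hy, hh⟩
        exact h (Op.pt.inj hh).1.symm
      rw [this]; exact isOpen_empty
  · rintro ⟨y, _, hh⟩
    exact absurd hh (by simp)

theorem op_pt_cont (i : ℕ) : Continuous (Op.pt i : A i → Op A) := by
  rw [continuous_def]
  intro U hU
  exact hU.1 i

/-- the `i`-th summand -/
def comp (A : ℕ → Type) (i : ℕ) : Set (Op A) := range (Op.pt i)

theorem comp_open (i : ℕ) : IsOpen (comp A i) := by
  unfold comp
  rw [← image_univ]
  exact op_img_open i univ isOpen_univ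

theorem coset_open (i : ℕ) (C : Set (A i)) (hC : IsClosed C) : IsOpen ((Op.pt i '' C)ᶜ : Set (Op A)) := by
  rw [op_open_iff]
  refine ⟨?_, ?_⟩
  · intro j
    by_cases h : j = i
    · subst h
      have : {x : A j | Op.pt j x ∈ ((Op.pt j '' C)ᶜ : Set (Op A))} = Cᶜ := by
        ext x
        constructor
        · intro hx hc; exact hx ⟨x, hc, rfl⟩
        · rintro hx ⟨y, hy, hh⟩
          have := (Op.pt.inj hh).2
          rw [eq_of_heq this] at hy
          exact hx hy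
      rw [this]; exact hC.isOpen_compl
    · have : {x : A j | Op.pt j x ∈ ((Op.pt i '' C)ᶜ : Set (Op A))} = univ := by
        ext x
        simp only [mem_univ, iff_true]
        rintro ⟨y, hy, hh⟩
        exact h (Op.pt.inj hh).1.symm
      rw [this]; exact isOpen_univ
  · intro _
    apply (Set.finite_singleton i).subset
    intro j hj
    by_contra hne
    apply hj
    rintro x ⟨y, hy, hh⟩
    exact hne (Op.pt.inj hh).1.symm

theorem comp_compl_open (i : ℕ) : IsOpen (comp A i)ᶜ := by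
  unfold comp
  rw [← image_univ]
  exact coset_open i univ isClosed_univ

theorem op_t0 [∀ i, T0Space (A i)] : T0Space (Op A) := by
  rw [t0Space_iff_inseparable]
  intro x y hxy
  have key : ∀ (i : ℕ) (a : A i) (y : Op A), Inseparable (Op.pt i a) y → Op.pt i a = y := by
    intro i a y h
    have hy : y ∈ comp A i := (h.mem_open_iff (comp_open i)).1 ⟨a, rfl⟩
    obtain ⟨b, rfl⟩ := hy
    congr 1
    have : Inseparable a b := by
      rw [inseparable_iff_forall_isOpen]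
      intro V hV
      have h1 := h.mem_open_iff (op_img_open i V hV)
      have h2 : ∀ c : A i, (Op.pt i c ∈ (Op.pt i '' V : Set (Op A)) ↔ c ∈ V) := by
        intro c
        constructor
        · rintro ⟨y, hy, hh⟩
          have := (Op.pt.inj hh).2
          rw [eq_of_heq this] at hy
          exact hy
        · intro hx; exact ⟨c, hx, rfl⟩
      rw [h2, h2] at h1
      exact h1
    exact this.eq
  cases x with
  | pt i a => exact key i a y hxy
  | inf =>
    cases y with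
    | inf => rfl
    | pt j b => exact (key j b _ hxy.symm).symm

end Op

theorem KK_OpZ : KK (Op Zs) := by
  refine ⟨op_t0, ?_⟩
  intro j g hg
  by_cases h : ∃ t i z, g t = Op.pt i z
  · obtain ⟨t0, i, z0, hz0⟩ := h
    have hall : ∀ t, ∃ z, Op.pt i z = g t := by
      have h1 : IsClosed (g ⁻¹' (comp Zs i)) := (isOpen_compl_iff.1 (comp_compl_open i)).preimage hg
      have h2 : IsClosed (g ⁻¹' (comp Zs i)ᶜ) := (comp_open i).isClosed_compl.preimage hg
      rcases cover2 h1 h2 (by rw [preimage_compl, union_compl_self]) with h3 | h3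
      · intro t
        have : t ∈ g ⁻¹' (comp Zs i) := by rw [h3]; trivial
        exact this
      · exfalso
        have : t0 ∈ g ⁻¹' (comp Zs i)ᶜ := by rw [h3]; trivial
        exact this ⟨z0, hz0.symm⟩
    choose g' hg' using hall
    have hc : Continuous g' := by
      rw [continuous_def]
      intro V hV
      have : g' ⁻¹' V = g ⁻¹' (Op.pt i '' V) := by
        ext t
        constructor
        · intro ht; exact ⟨g' t, ht, hg' t⟩
        · rintro ⟨y, hy, hh⟩
          rw [← hg' t] at hh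
          have := (Op.pt.inj hh).2
          rw [eq_of_heq this] at hy
          exact hy
      rw [this]
      exact (op_img_open i V hV).preimage hg
    obtain ⟨z, hz⟩ := (KK_Zs i).2 j g' hc
    refine ⟨Op.pt i z, ?_⟩
    rw [closure_eq_iff] at hz ⊢
    intro V hV
    have h1 := hz _ (hV.preimage (op_pt_cont i))
    have h2 : (V ∩ range g).Nonempty ↔ ((Op.pt i ⁻¹' V) ∩ range g').Nonempty := by
      constructor
      · rintro ⟨_, hv, ⟨t, rfl⟩⟩
        exact ⟨g' t, by show Op.pt i (g' t) ∈ V; rw [hg' t]; exact hv, ⟨t, rfl⟩⟩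
      · rintro ⟨_, hv, ⟨t, rfl⟩⟩
        refine ⟨g t, ?_, ⟨t, rfl⟩⟩
        rw [← hg' t]; exact hv
    rw [h2, h1]
    rfl
  · have hinf : ∀ t, g t = Op.inf := by
      intro t
      cases ht : g t with
      | inf => rfl
      | pt i z => exact absurd ⟨t, i, z, ht⟩ h
    refine ⟨Op.inf, ?_⟩
    rw [closure_eq_iff]
    intro V hV
    obtain ⟨t0⟩ := neX j
    constructor
    · rintro ⟨_, hv, ⟨t, rfl⟩⟩
      rw [hinf t] at hv; exact hv
    · intro h
      exact ⟨g t0, by rw [hinf t0]; exact h, ⟨t0, rfl⟩⟩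

theorem Op_det (A : Set (Op Xs)) (hA : IsIrreducible A) (hc : IsClosed A) (Y : Type) [TopologicalSpace Y] (hK : KK Y)
    (f : Op Xs → Y) (hf : Continuous f) : ∃! y : Y, closure (f '' A) = closure ({y} : Set Y) := by
  have h0 := hK.1
  by_cases h : ∃ i x, Op.pt i x ∈ A
  · obtain ⟨i, x0, hx0⟩ := h
    have hsub : ∀ z ∈ A, z ∈ comp Xs i := by
      intro z hz
      by_contra hzc
      obtain ⟨w, hw, hw1, hw2⟩ := hA.2 _ _ (comp_open i) (comp_compl_open i) ⟨_, hx0, ⟨x0, rfl⟩⟩ ⟨z, hz, hzc⟩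
      exact hw2 hw1
    set A' : Set (Xs i) := Op.pt i ⁻¹' A with hA'
    have hAA : A = Op.pt i '' A' := by
      ext z
      constructor
      · intro hz
        obtain ⟨x, rfl⟩ := hsub z hz
        exact ⟨x, hz, rfl⟩
      · rintro ⟨x, hx, rfl⟩; exact hx
    have hc' : IsClosed A' := hc.preimage (op_pt_cont i)
    have hirr : IsIrreducible A' := by
      refine ⟨⟨x0, hx0⟩, ?_⟩
      intro U V hU hV ⟨x, hx, hxU⟩ ⟨y, hy, hyV⟩
      obtain ⟨w, hw, ⟨u, hu, hu'⟩, ⟨v, hv, hv'⟩⟩ := hA.2 _ _ (op_img_open i U hU) (op_img_open i V hV)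
        ⟨_, hx, ⟨x, hxU, rfl⟩⟩ ⟨_, hy, ⟨y, hyV, rfl⟩⟩
      have : u = v := by
        have := hu'.trans hv'.symm
        exact eq_of_heq (Op.pt.inj this).2
      subst this
      exact ⟨u, by show Op.pt i u ∈ A; rw [hu']; exact hw, hu, hv⟩
    rcases closed_X.1 hc' with h1 | h1
    · have e : f '' A = (f ∘ Op.pt i) '' univ := by rw [hAA, h1, image_comp]
      rw [e]
      exact det_univ i Y hK _ (hf.comp (op_pt_cont i))
    · obtain ⟨a, ha⟩ := small_irr_X hirr h1
      rw [hAA, ha, image_singleton, image_singleton]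
      exact ⟨_, rfl, fun z hz => t0_unique hz.symm⟩
  · have e : A = {Op.inf} := by
      obtain ⟨z, hz⟩ := hA.1
      have hall : ∀ z ∈ A, z = Op.inf := by
        intro z hz
        cases z with
        | inf => rfl
        | pt i x => exact absurd ⟨i, x, hz⟩ h
      ext w
      constructor
      · intro hw; exact hall w hw
      · intro hw
        rw [mem_singleton_iff.1 hw, ← hall z hz]; exact hz
    rw [e, image_singleton]
    exact ⟨_, rfl, fun z hz => t0_unique hz.symm⟩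

theorem singleton_closed_X {i : ℕ} (a : Xs i) : IsClosed ({a} : Set (Xs i)) :=
  closed_X.2 (Or.inr (by rw [Cardinal.mk_singleton]; exact le_trans Cardinal.one_le_aleph0 (ka_inf i)))

theorem singleton_closed_Z {i : ℕ} (a : Xs i) : IsClosed ({Zs.pt a} : Set (Zs i)) :=
  closed_Z_small (by intro h; exact absurd (mem_singleton_iff.1 h) (by simp))
    (by rw [Cardinal.mk_singleton]; exact le_trans Cardinal.one_le_aleph0 (ka_inf i))

/-- the compact set `{inf} ∪ {x_i}` -/
def KxSet (x : ∀ i, Xs i) : Set (Op Xs) := {z | z = Op.inf ∨ ∃ i, z = Op.pt i (x i)}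

theorem Kx_compact (x : ∀ i, Xs i) : IsCompact (KxSet x) := by
  classical
  apply isCompact_of_finite_subcover
  intro ι U hUo hUc
  obtain ⟨j0, hj0⟩ := mem_iUnion.1 (hUc (Or.inl rfl : Op.inf ∈ KxSet x))
  have hfin := (hUo j0).2 hj0
  have hch : ∀ i, ∃ j, Op.pt i (x i) ∈ U j := fun i => mem_iUnion.1 (hUc (Or.inr ⟨i, rfl⟩))
  choose c hc using hch
  refine ⟨insert j0 (hfin.toFinset.image c), ?_⟩
  rintro z (rfl | ⟨i, rfl⟩)
  · exact mem_iUnion₂.2 ⟨j0, Finset.mem_insert_self _ _, hj0⟩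
  · by_cases hi : ∀ y : Xs i, Op.pt i y ∈ U j0
    · exact mem_iUnion₂.2 ⟨j0, Finset.mem_insert_self _ _, hi _⟩
    · exact mem_iUnion₂.2 ⟨c i, Finset.mem_insert_of_mem (Finset.mem_image.2 ⟨i, hfin.mem_toFinset.2 hi, rfl⟩), hc i⟩

theorem Kx_sat (x : ∀ i, Xs i) (z : Op Xs) (hz : ∀ U : Set (Op Xs), IsOpen U → KxSet x ⊆ U → z ∈ U) : z ∈ KxSet x := by
  cases z with
  | inf => exact Or.inl rfl
  | pt i y =>
    by_cases h : y = x i
    · right; exact ⟨i, by rw [h]⟩
    · exfalso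
      have := hz _ (coset_open i {y} (singleton_closed_X y)) (by
        rintro w (rfl | ⟨j, rfl⟩)
        · rintro ⟨_, _, hh⟩; exact absurd hh (by simp)
        · rintro ⟨w, hw, hh⟩
          rw [mem_singleton_iff.1 hw] at hh
          obtain ⟨h1, h2⟩ := Op.pt.inj hh
          subst h1
          exact h (eq_of_heq h2))
      exact this ⟨y, rfl, rfl⟩

def Kx (x : ∀ i, Xs i) : PS (Op Xs) := ⟨KxSet x, ⟨Op.inf, Or.inl rfl⟩, Kx_compact x, Kx_sat x⟩

theorem Kx_cont : Continuous Kx := by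
  rw [continuous_generateFrom_iff]
  rintro S ⟨U, hU, rfl⟩
  by_cases h : Op.inf ∈ U
  · have hfin := hU.2 h
    have : Kx ⁻¹' {K : PS (Op Xs) | K.1 ⊆ U} = ⋂ i ∈ {i | ¬ ∀ y : Xs i, Op.pt i y ∈ U}, {x : ∀ i, Xs i | Op.pt i (x i) ∈ U} := by
      ext x
      simp only [mem_iInter]
      constructor
      · intro hx i _
        exact hx (Or.inr ⟨i, rfl⟩)
      · rintro hx z (rfl | ⟨i, rfl⟩)
        · exact h
        · by_cases hi : ∀ y : Xs i, Op.pt i y ∈ U
          · exact hi _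
          · exact hx i hi
    rw [this]
    apply hfin.isOpen_biInter
    intro i _
    exact (hU.1 i).preimage (continuous_apply i)
  · have : Kx ⁻¹' {K : PS (Op Xs) | K.1 ⊆ U} = ∅ := by
      ext x
      simp only [mem_empty_iff_false, iff_false]
      intro hx
      exact h (hx (Or.inl rfl))
    rw [this]; exact isOpen_empty

/-- the target space -/
abbrev Zt : Type := {Q : PS (Op Zs) // {i | Op.pt i (Zs.gen : Zs i) ∈ Q.1 ∧ ∀ x : Xs i, Op.pt i (Zs.pt x) ∉ Q.1}.Finite}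

theorem KK_Zt : KK Zt := by
  have hP := KK_Smyth (Op Zs) KK_OpZ
  have hPt0 := hP.1
  refine ⟨inferInstance, ?_⟩
  intro j g hg
  have hgc : Continuous (fun t => (g t).1) := continuous_subtype_val.comp hg
  obtain ⟨Q, hQ⟩ := hP.2 j (fun t => (g t).1) hgc
  rw [closure_eq_iff] at hQ
  have ha : ∀ U : Set (Op Zs), IsOpen U → (Q.1 ⊆ U ↔ ∃ t, (g t).1.1 ⊆ U) := by
    intro U hU
    rw [show Q.1 ⊆ U ↔ Q ∈ {K : PS (Op Zs) | K.1 ⊆ U} from Iff.rfl, ← hQ _ (PS_box _ U hU)]
    constructor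
    · rintro ⟨_, hv, ⟨t, rfl⟩⟩; exact ⟨t, hv⟩
    · rintro ⟨t, ht⟩; exact ⟨_, ht, ⟨t, rfl⟩⟩
  have hb : ∀ t, Q.1 ⊆ (g t).1.1 := by
    intro t x hx
    apply (g t).1.2.2.2
    intro U hU hsub
    exact (ha U hU).2 ⟨t, hsub⟩ hx
  set J : Set ℕ := {i | j < i ∧ Op.pt i (Zs.gen : Zs i) ∈ Q.1 ∧ ∀ x : Xs i, Op.pt i (Zs.pt x) ∉ Q.1} with hJ
  have hsm : ∀ i ∈ J, #{t | ∃ x : Xs i, Op.pt i (Zs.pt x) ∈ (g t).1.1} ≤ ka j := by
    intro i hi
    set T : Set (Xs j) := {t | ∃ x : Xs i, Op.pt i (Zs.pt x) ∈ (g t).1.1} with hT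
    have hsel : ∀ t : T, ∃ x : Xs i, Op.pt i (Zs.pt x) ∈ (g t.1).1.1 := fun t => t.2
    choose s hs using hsel
    have hS : #(range (fun t => (Zs.pt (s t) : Zs i))) ≤ ka i := by
      calc #(range (fun t => (Zs.pt (s t) : Zs i))) ≤ #T := Cardinal.mk_range_le
        _ ≤ #(Xs j) := Cardinal.mk_set_le _
        _ = ka (j+1) := mk_Xs j
        _ ≤ ka i := ka_mono hi.1
    have hcl : IsClosed (range (fun t => (Zs.pt (s t) : Zs i))) := closed_Z_small (by
      rintro ⟨t, ht⟩; exact absurd ht (by simp)) hS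
    have hU := coset_open i _ hcl
    obtain ⟨t0, ht0⟩ := (ha _ hU).1 (by
      rintro z hz ⟨_, ⟨t, rfl⟩, rfl⟩
      exact hi.2.2 _ hz)
    have hO : IsOpen ((fun t => (g t).1) ⁻¹' {K : PS (Op Zs) | K.1 ⊆ (Op.pt i '' (range (fun t => (Zs.pt (s t) : Zs i))))ᶜ}) :=
      (PS_box _ _ hU).preimage hgc
    rcases closed_X.1 hO.isClosed_compl with h1 | h1
    · exfalso
      have : t0 ∈ ((fun t => (g t).1) ⁻¹' {K : PS (Op Zs) | K.1 ⊆ (Op.pt i '' (range (fun t => (Zs.pt (s t) : Zs i))))ᶜ})ᶜ := by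
        rw [h1]; trivial
      exact this ht0
    · refine small_mono h1 ?_
      intro t ht hcon
      exact hcon (hs ⟨t, ht⟩) ⟨_, ⟨⟨t, ht⟩, rfl⟩, rfl⟩
  have hJf : J.Finite := by
    by_contra hinf
    have hcov : (⋃ i : J, {t | ∃ x : Xs i, Op.pt (i : ℕ) (Zs.pt x) ∈ (g t).1.1}) = univ := by
      ext t
      simp only [mem_iUnion, mem_univ, iff_true]
      by_contra hh
      push Not at hh
      apply hinf
      apply (g t).2.subset
      intro i hi
      refine ⟨hb t hi.2.1, ?_⟩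
      intro x hx
      exact hh ⟨i, hi⟩ ⟨x, hx⟩
    have h1 : #(⋃ i : J, {t | ∃ x : Xs i, Op.pt (i : ℕ) (Zs.pt x) ∈ (g t).1.1} : Set (Xs j)) ≤ ka j := by
      refine le_trans (Cardinal.mk_iUnion_le _) ?_
      have h2 : (⨆ i : J, #{t | ∃ x : Xs i, Op.pt (i : ℕ) (Zs.pt x) ∈ (g t).1.1}) ≤ ka j := by
        apply ciSup_le'
        intro i
        exact hsm i.1 i.2
      calc #J * (⨆ i : J, #{t | ∃ x : Xs i, Op.pt (i : ℕ) (Zs.pt x) ∈ (g t).1.1}) ≤ ℵ₀ * ka j :=
            mul_le_mul' (Cardinal.mk_le_aleph0) h2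
        _ ≤ ka j * ka j := mul_le_mul' (ka_inf j) le_rfl
        _ = ka j := Cardinal.mul_eq_self (ka_inf j)
    rw [hcov] at h1
    exact univ_not_small j h1
  have hfin : {i | Op.pt i (Zs.gen : Zs i) ∈ Q.1 ∧ ∀ x : Xs i, Op.pt i (Zs.pt x) ∉ Q.1}.Finite := by
    apply (hJf.union (Set.finite_Iic j)).subset
    intro i hi
    by_cases hij : j < i
    · left; exact ⟨hij, hi⟩
    · right; exact not_lt.1 hij
  refine ⟨⟨Q, hfin⟩, ?_⟩
  rw [closure_eq_iff]
  intro V hV
  obtain ⟨W, hW, rfl⟩ := isOpen_induced_iff.1 hV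
  have h1 := hQ W hW
  have h2 : (W ∩ range (fun t => (g t).1)).Nonempty ↔ ((Subtype.val ⁻¹' W : Set Zt) ∩ range g).Nonempty := by
    constructor
    · rintro ⟨_, hv, ⟨t, rfl⟩⟩
      exact ⟨g t, hv, ⟨t, rfl⟩⟩
    · rintro ⟨_, hv, ⟨t, rfl⟩⟩
      exact ⟨(g t).1, hv, ⟨t, rfl⟩⟩
  rw [← h2, h1]
  rfl

/-- the inclusion `Op Xs → Op Zs` -/
def io : Op Xs → Op Zs
  | Op.inf => Op.inf
  | Op.pt i x => Op.pt i (Zs.pt x)

theorem io_cont : Continuous io := by
  rw [continuous_def]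
  intro U hU
  refine ⟨fun i => (hU.1 i).preimage (eta_cont i), ?_⟩
  intro h
  apply (hU.2 h).subset
  intro i hi hc
  exact hi (fun x => hc (Zs.pt x))

def satSet (B : Set (Op Zs)) : Set (Op Zs) := {z | ∀ U : Set (Op Zs), IsOpen U → B ⊆ U → z ∈ U}

theorem sub_sat (B : Set (Op Zs)) : B ⊆ satSet B := fun z hz _ _ h => h hz

def satPS (K : PS (Op Xs)) : PS (Op Zs) :=
  ⟨satSet (io '' K.1), ⟨by
    obtain ⟨x, hx⟩ := K.2.1
    exact ⟨io x, sub_sat _ ⟨x, hx, rfl⟩⟩, by
    apply isCompact_of_finite_subcover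
    intro ι U hUo hUc
    obtain ⟨u, hu⟩ := (K.2.2.1.image io_cont).elim_finite_subcover U hUo ((sub_sat _).trans hUc)
    refine ⟨u, ?_⟩
    intro z hz
    exact hz _ (isOpen_biUnion (fun j _ => hUo j)) hu, by
    intro x hx U hU hB
    exact hx U hU (fun z hz => hz U hU hB)⟩⟩

theorem satPS_sub (K : PS (Op Xs)) (U : Set (Op Zs)) (hU : IsOpen U) : (satPS K).1 ⊆ U ↔ K.1 ⊆ io ⁻¹' U := by
  constructor
  · intro h x hx
    exact h (sub_sat _ ⟨x, hx, rfl⟩)
  · intro h z hz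
    exact hz U hU (by rintro _ ⟨x, hx, rfl⟩; exact h hx)

def fz (K : PS (Op Xs)) : Zt := ⟨satPS K, by
  have : {i | Op.pt i (Zs.gen : Zs i) ∈ (satPS K).1 ∧ ∀ x : Xs i, Op.pt i (Zs.pt x) ∉ (satPS K).1} = ∅ := by
    ext i
    simp only [mem_empty_iff_false, iff_false]
    rintro ⟨h1, h2⟩
    have := h1 (comp Zs i)ᶜ (comp_compl_open i) (by
      rintro _ ⟨x, hx, rfl⟩ ⟨z, hz⟩
      cases x with
      | inf => exact absurd hz (by simp [io])
      | pt j y =>
        have hz' : Op.pt i z = Op.pt j (Zs.pt y) := hz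
        obtain ⟨h3, h4⟩ := Op.pt.inj hz'
        subst h3
        exact h2 y (sub_sat _ ⟨_, hx, rfl⟩))
    exact this ⟨_, rfl⟩
  rw [this]; exact finite_empty⟩

theorem fz_cont : Continuous fz := by
  apply Continuous.subtype_mk
  rw [continuous_generateFrom_iff]
  rintro S ⟨U, hU, rfl⟩
  have : satPS ⁻¹' {K : PS (Op Zs) | K.1 ⊆ U} = {K : PS (Op Xs) | K.1 ⊆ io ⁻¹' U} := by
    ext K; exact satPS_sub K U hU
  rw [this]
  exact PS_box _ _ (hU.preimage io_cont)

theorem not_det : ¬ ∃ y : Zt, closure (fz '' closure (range Kx)) = closure {y} := by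
  rintro ⟨Q, hQ⟩
  rw [closure_image_closure fz_cont, closure_eq_iff] at hQ
  obtain ⟨i, hi⟩ : ∃ i, ¬ (Op.pt i (Zs.gen : Zs i) ∈ Q.1.1 ∧ ∀ x : Xs i, Op.pt i (Zs.pt x) ∉ Q.1.1) := by
    by_contra hcon
    push Not at hcon
    have h1 : {i | Op.pt i (Zs.gen : Zs i) ∈ Q.1.1 ∧ ∀ x : Xs i, Op.pt i (Zs.pt x) ∉ Q.1.1} = univ := by
      ext i; simp only [mem_univ, iff_true]; exact hcon i
    have h2 := Q.2
    rw [h1] at h2
    exact Set.infinite_univ h2
  by_cases hpt : ∃ a : Xs i, Op.pt i (Zs.pt a) ∈ Q.1.1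
  · obtain ⟨a, ha⟩ := hpt
    obtain ⟨b, hb⟩ := exists_ne i a
    have hU := coset_open (A := Zs) i {Zs.pt a} (singleton_closed_Z a)
    have hV : IsOpen {R : Zt | R.1.1 ⊆ (Op.pt i '' {(Zs.pt a : Zs i)})ᶜ} :=
      (PS_box _ _ hU).preimage continuous_subtype_val
    classical
    have := (hQ _ hV).1 ⟨fz (Kx (fun j => if hj : j = i then hj ▸ b else Classical.choice (neX j))), by
      show (satPS _).1 ⊆ _
      rw [satPS_sub _ _ hU]
      rintro z (rfl | ⟨j, rfl⟩)
      · rintro ⟨_, _, hh⟩; exact absurd hh (by simp [io])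
      · rintro ⟨w, hw, hh⟩
        rw [mem_singleton_iff.1 hw] at hh
        obtain ⟨h1, h2⟩ := Op.pt.inj hh
        subst h1
        have := Zs.pt.inj (eq_of_heq h2)
        simp only [dite_true] at this
        exact hb this.symm, ⟨_, ⟨_, rfl⟩, rfl⟩⟩
    exact this ha ⟨_, rfl, rfl⟩
  · have hgen : Op.pt i (Zs.gen : Zs i) ∉ Q.1.1 := by
      intro h
      exact hi ⟨h, fun x hx => hpt ⟨x, hx⟩⟩
    have hV : IsOpen {R : Zt | R.1.1 ⊆ (comp Zs i)ᶜ} :=
      (PS_box _ _ (comp_compl_open i)).preimage continuous_subtype_val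
    obtain ⟨_, hv, ⟨_, ⟨x, rfl⟩, rfl⟩⟩ := (hQ _ hV).2 (by
      intro z hz hzc
      obtain ⟨w, rfl⟩ := hzc
      cases w with
      | gen => exact hgen hz
      | pt a => exact hpt ⟨a, hz⟩)
    have : io (Op.pt i (x i)) ∈ (satPS (Kx x)).1 := sub_sat _ ⟨_, Or.inr ⟨i, rfl⟩, rfl⟩
    exact hv this ⟨_, rfl⟩

theorem irr_A : IsIrreducible (closure (range Kx)) := by
  have : IsIrreducible (range Kx) := by
    rw [← image_univ]
    exact irr_prod.image Kx Kx_cont.continuousOn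
  exact this.closure

end Pool.Agent.KDet
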